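import Pool.Agent.W345.GK.TF

set_option autoImplicit false

open Polynomial Finset

/-! Project GK: first order variation of the trace formula. -/

namespace Pool.Agent.W308.GK

open Pool.Agent.W345.GK

theorem AA_map {L L' : Type} [Semiring L] [Semiring L'] (f : L →+* L') (q M : ℕ) (R : L[X]) :
    (AA q M R).map f = AA q M (R.map f) := by
  ext i j
  simp only [AA, Matrix.map_apply]
  split_ifs
  · rw [coeff_map]
  · rw [map_zero]

theorem AA_add_mul {L : Type} [Semiring L] (q M : ℕ) (R S : L[X]) (a : L) :
    AA q M (R + C a * S) = AA q M R + a • AA q M S := by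
  ext i j
  simp only [AA, Matrix.add_apply, Matrix.smul_apply, smul_eq_mul]
  split_ifs
  · rw [coeff_add, coeff_C_mul]
  · rw [mul_zero, add_zero]

/-- evaluation at a mapped matrix -/
theorem aeval_map_mat {F K : Type} [Field F] [Field K] (ι : F →+* K) {n : ℕ} (R : F[X])
    (N : Matrix (Fin n) (Fin n) F) : aeval (N.map ι) (R.map ι) = (aeval N R).map ι := by
  have h := map_aeval_eq_aeval_map (φ := ι) (ψ := ι.mapMatrix (m := Fin n)) (by
    ext a i j
    simp only [RingHom.comp_apply, RingHom.mapMatrix_apply, Matrix.map_apply,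
      Matrix.algebraMap_matrix_apply, Algebra.algebraMap_self, RingHom.id_apply]
    split_ifs
    · rfl
    · rw [map_zero]) R N
  simp only [RingHom.mapMatrix_apply] at h
  exact h.symm

theorem key {k F K : Type} [Field k] [Fintype k] [Field F] [Field K] [Algebra k F] [Algebra k K]
    (hTF : S_TF) (ϕ : F[X] →+* K) (hϕ : Function.Injective ϕ)
    (hk : ∀ a : k, algebraMap k K a = ϕ (C (algebraMap k F a))) (R : F[X]) (M l : ℕ)
    (hR : R.natDegree + l ≤ (Fintype.card k - 1) * (M + 1)) :
    (1 - (AA (Fintype.card k) M R).map C -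
      (X : F[X]) • (AA (Fintype.card k) M (R * X ^ l)).map C).det =
    ∑ n ∈ range (M + 2), ∑ c : Fin n → k, C (RES c R) *
      (1 + (X : F[X]) • (((comp c) ^ l).map (algebraMap k F)).map C).det := by
  apply hϕ
  set q := Fintype.card k with hq
  set ι : F →+* K := ϕ.comp C with hι
  set ε : K := ϕ X with hε
  set Re : K[X] := R.map ι + C ε * (R * X ^ l).map ι with hRe
  -- the matrix
  have hA : AA q M Re = (AA q M R).map ι + ε • (AA q M (R * X ^ l)).map ι := by
    rw [hRe, AA_add_mul, AA_map, AA_map]
  have hdeg : Re.natDegree ≤ (q - 1) * (M + 1) := by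
    refine (natDegree_add_le _ _).trans (max_le ?_ ?_)
    · exact natDegree_map_le.trans ((Nat.le_add_right _ _).trans hR)
    · refine (natDegree_C_mul_le _ _).trans (natDegree_map_le.trans ?_)
      refine natDegree_mul_le.trans ?_
      rw [natDegree_X_pow]
      exact hR
  have hT := hTF k K Re M hdeg
  -- evaluation at one
  have hsum : (1 - AA q M Re).det = ∑ n ∈ range (M + 2), ∑ c : Fin n → k, RES c Re := by
    set D := (1 + (X : K[X]) • (-(AA q M Re)).map C).det with hD
    have h1 : D.natDegree < M + 2 := by
      have h2 := natDegree_det_X_add_C_le (-(AA q M Re)) (1 : Matrix (Fin (M + 1)) (Fin (M + 1)) K)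
      rw [Matrix.map_one C C_0 C_1, add_comm ((X : K[X]) • (-(AA q M Re)).map C) 1] at h2
      have h4 : Fintype.card (Fin (M + 1)) = M + 1 := Fintype.card_fin _
      exact Nat.lt_succ_of_le (h2.trans h4.le)
    have h3 : eval 1 D = (1 - AA q M Re).det := by
      rw [hD, ← coe_evalRingHom, RingHom.map_det]
      congr 1
      ext i j
      simp only [RingHom.mapMatrix_apply, Matrix.map_apply, Matrix.add_apply, Matrix.smul_apply,
        smul_eq_mul, Matrix.neg_apply, coe_evalRingHom, eval_add, eval_mul, eval_X, eval_C,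
        Matrix.sub_apply, Matrix.one_apply]
      split_ifs <;> simp <;> ring
    rw [← h3, eval_eq_sum_range' h1]
    apply Finset.sum_congr rfl
    intro n _
    rw [one_pow, mul_one, hT n]
  -- left side
  have hL : ϕ ((1 - (AA q M R).map C - (X : F[X]) • (AA q M (R * X ^ l)).map C).det) =
      (1 - AA q M Re).det := by
    rw [RingHom.map_det, hA]
    congr 1
    ext i j
    simp only [RingHom.mapMatrix_apply, Matrix.map_apply, Matrix.add_apply, Matrix.smul_apply,
      smul_eq_mul, Matrix.sub_apply, Matrix.one_apply, map_sub, map_mul, hι, RingHom.comp_apply,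
      hε]
    split_ifs <;> simp <;> ring
  rw [hL, hsum, map_sum]
  apply Finset.sum_congr rfl
  intro n _
  rw [map_sum]
  apply Finset.sum_congr rfl
  intro c _
  -- the resultant
  set N : Matrix (Fin n) (Fin n) F := (comp c).map (algebraMap k F) with hN
  have e1 : (comp c).map (algebraMap k K) = N.map ι := by
    ext i j
    simp only [hN, Matrix.map_apply, hι, RingHom.comp_apply]
    exact hk _
  have e2 : aeval (N.map ι) Re = (aeval N R).map ι * (1 + ε • (N ^ l).map ι) := by
    have e3 : Re = R.map ι * (1 + C ε * X ^ l) := by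
      rw [hRe, Polynomial.map_mul, Polynomial.map_pow, map_X]
      ring
    rw [e3, map_mul, aeval_map_mat]
    congr 1
    rw [map_add, map_one, map_mul, aeval_C, map_pow, aeval_X, Algebra.algebraMap_eq_smul_one,
      smul_one_mul]
    congr 2
    have h : (N ^ l).map ι = (ι.mapMatrix N) ^ l := by
      rw [← map_pow]; rfl
    rw [h]
    rfl
  have e4 : (((comp c) ^ l).map (algebraMap k F)) = N ^ l := by
    have h : ((comp c) ^ l).map (algebraMap k F) = ((algebraMap k F).mapMatrix (comp c)) ^ l := by
      rw [← map_pow]; rfl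
    rw [h]
    rfl
  have e5 : RES c Re = (aeval (N.map ι) Re).det := by
    unfold RES
    rw [e1]
  have e6 : RES c R = (aeval N R).det := rfl
  rw [e5, e2, Matrix.det_mul, e4, e6, map_mul]
  congr 1
  · rw [← RingHom.comp_apply, ← hι, RingHom.map_det]
    rfl
  · rw [RingHom.map_det]
    congr 1
    ext i j
    simp only [RingHom.mapMatrix_apply, Matrix.map_apply, Matrix.add_apply, Matrix.smul_apply,
      smul_eq_mul, Matrix.one_apply, map_add, map_mul, hι, RingHom.comp_apply, hε]
    split_ifs <;> simp

theorem tfd : S_TF → S_TFD := by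
  intro hTF k F _ _ _ _ R M l hR
  have hinj : Function.Injective (algebraMap F[X] (FractionRing F[X])) :=
    IsFractionRing.injective F[X] (FractionRing F[X])
  have h := key hTF (algebraMap F[X] (FractionRing F[X])) hinj (fun a => by
    rw [IsScalarTower.algebraMap_apply k F[X] (FractionRing F[X])]
    rfl) R M l hR
  rw [h, finsetSum_coeff]
  apply Finset.sum_congr rfl
  intro n _
  rw [finsetSum_coeff]
  apply Finset.sum_congr rfl
  intro c _
  rw [coeff_C_mul, Matrix.coeff_det_one_add_X_smul_one]
  congr 1
  unfold psm Matrix.trace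
  rw [map_sum]
  rfl

end Pool.Agent.W308.GK
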